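import Pool.Agent.Results.MP_4ba699_an.HopfVariantFails

/-!
# Reflections of functions which decrease in the first variable

Helper file for `MP_4ba699_an.EveryTrace`.
-/

set_option autoImplicit false
open Set Filter Topology
open scoped ContDiff

namespace Pool.Agent.Y958.HP

open Pool.Agent.Results.MP_4ba699_an.HopfVariantFails

/-- the reflection `(t, y) ↦ (-t, y)` -/
noncomputable def R {d : ℕ} : Pt d →L[ℝ] Pt d :=
  (-(ContinuousLinearMap.fst ℝ ℝ (Y d))).prod (ContinuousLinearMap.snd ℝ ℝ (Y d))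

theorem R_apply {d : ℕ} (p : Pt d) : R p = (-p.1, p.2) := rfl

theorem R_eq {d : ℕ} (p : Pt d) : R p = p - (2 * p.1) • (cvec 0 : Pt d) := by
  have h : (cvec 0 : Pt d) = (1, 0) := rfl
  rw [h]
  ext
  · simp [R_apply]; ring
  · simp [R_apply]

theorem jet0_refl {d : ℕ} {v : Pt d → ℝ} {q : Pt d} (hv : ContDiffAt ℝ 2 v q) (hq : q.1 = 0)
    (hmax : ∀ᶠ p in 𝓝 q, pd 0 v p ≤ 0) (hq0 : pd 0 v q = 0) :
    Jet0 (fun p : Pt d => v (-p.1, p.2) - v p) q := by
  have hRq : R q = q := by
    rw [R_eq, hq]; simp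
  have hRt : Tendsto (R : Pt d → Pt d) (𝓝 q) (𝓝 q) := by
    have h := (R (d := d)).continuous.tendsto q
    rwa [hRq] at h
  have hvR : ContDiffAt ℝ 2 (fun p : Pt d => v (-p.1, p.2)) q := by
    have h : ContDiffAt ℝ 2 (v ∘ (R : Pt d → Pt d)) q := by
      refine ContDiffAt.comp q ?_ (R (d := d)).contDiff.contDiffAt
      rw [hRq]; exact hv
    exact h
  have hdv := ContDiffAt.diff_fderiv hv
  set B := fderiv ℝ (fderiv ℝ v) q with hB
  have hBd : HasFDerivAt (fderiv ℝ v) B q := hdv.hasFDerivAt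
  -- the second derivatives with one `t`
  have hB0 : ∀ h : Pt d, B h (cvec 0) = 0 := by
    intro h
    have h1 : IsLocalMax (pd 0 v) q := by
      filter_upwards [hmax] with p hp
      rw [hq0]; exact hp
    have h2 : HasFDerivAt (fun p => fderiv ℝ v p (cvec 0))
        ((fderiv ℝ v q).comp (0 : Pt d →L[ℝ] Pt d) + B.flip (cvec 0)) q :=
      hBd.clm_apply (hasFDerivAt_const (cvec 0 : Pt d) q)
    have h3 : fderiv ℝ (pd 0 v) q = 0 := h1.fderiv_eq_zero
    have h4 : pd 0 v = fun p => fderiv ℝ v p (cvec 0) := rfl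
    rw [h4, h2.fderiv] at h3
    have h5 := congrArg (fun L : Pt d →L[ℝ] ℝ => L h) h3
    simpa using h5
  have hB0' : ∀ h : Pt d, B (cvec 0) h = 0 := by
    intro h
    rw [← hB0 h, hB]
    exact (hv.isSymmSndFDerivAt (by simp)).eq _ _
  have hdR : ∀ᶠ p in 𝓝 q, HasFDerivAt (fun p : Pt d => v (-p.1, p.2))
      ((fderiv ℝ v (R p)).comp R) p := by
    filter_upwards [hRt.eventually (ContDiffAt.ev_diff hv)] with p hp
    exact HasFDerivAt.comp p hp.hasFDerivAt (R (d := d)).hasFDerivAt
  have hfd : fderiv ℝ (fun p : Pt d => v (-p.1, p.2) - v p) =ᶠ[𝓝 q]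
      fun p => (fderiv ℝ v (R p)).comp R - fderiv ℝ v p := by
    filter_upwards [hdR, ContDiffAt.ev_diff hv] with p h1 h2
    exact (h1.sub h2.hasFDerivAt).fderiv
  refine ⟨hvR.sub hv, ?_, ?_⟩
  · rw [hfd.eq_of_nhds, hRq]
    refine ContinuousLinearMap.ext fun h => ?_
    show fderiv ℝ v q (R h) - fderiv ℝ v q h = 0
    have h6 : fderiv ℝ v q (cvec 0) = 0 := hq0
    rw [R_eq, map_sub, map_smul, h6]
    simp
  · rw [hfd.fderiv_eq]
    have h1 : HasFDerivAt (fun p : Pt d => fderiv ℝ v (R p)) (B.comp R) q := by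
      refine HasFDerivAt.comp q ?_ (R (d := d)).hasFDerivAt
      rw [hRq]; exact hBd
    have h2 : HasFDerivAt (fun p : Pt d => (fderiv ℝ v (R p)).comp R - fderiv ℝ v p) _ q :=
      (h1.clm_comp (hasFDerivAt_const (R (d := d)) q)).sub hBd
    rw [h2.fderiv]
    refine ContinuousLinearMap.ext fun h => ContinuousLinearMap.ext fun k => ?_
    simp only [ContinuousLinearMap.sub_apply, ContinuousLinearMap.add_apply,
      ContinuousLinearMap.comp_apply, ContinuousLinearMap.zero_apply, map_zero,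
      ContinuousLinearMap.compL_apply, ContinuousLinearMap.flip_apply, zero_add]
    have h7 : B (R h) (R k) = B h k := by
      rw [R_eq h, R_eq k]
      simp only [map_sub, map_smul, ContinuousLinearMap.sub_apply, ContinuousLinearMap.smul_apply,
        hB0, hB0', smul_zero, sub_zero]
    rw [h7, sub_self]

theorem sigma_add_jet0 {d : ℕ} {G D : Pt d → ℝ} {p : Pt d} (hG : ContDiffAt ℝ 2 G p)
    (hD : Jet0 D p) (m : ℕ) : sigma m (fun q => G q + D q) p = sigma m G p := by
  have h0 : ∀ i : Fin (d + 1), pd i (fun q => G q + D q) =ᶠ[𝓝 p] fun q => pd i G q + pd i D q := by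
    intro i
    filter_upwards [ContDiffAt.ev_diff hG, ContDiffAt.ev_diff hD.1] with q h1 h2
    rw [pd, fderiv_fun_add h1 h2]; rfl
  have h1 : ∀ i : Fin (d + 1), pd i (fun q => G q + D q) p = pd i G p := by
    intro i
    rw [(h0 i).eq_of_nhds, hD.pd_eq i, add_zero]
  have hdif : ∀ {F : Pt d → ℝ}, ContDiffAt ℝ 2 F p → ∀ j : Fin (d + 1),
      DifferentiableAt ℝ (pd j F) p := by
    intro F hF j
    have h3 : pd j F = fun q => fderiv ℝ F q (cvec j) := rfl
    rw [h3]
    exact (ContDiffAt.diff_fderiv hF).clm_apply (differentiableAt_const _)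
  have h2 : ∀ i j : Fin (d + 1), pd i (pd j (fun q => G q + D q)) p = pd i (pd j G) p := by
    intro i j
    have h3 : pd i (pd j (fun q => G q + D q)) p = pd i (pd j G) p + pd i (pd j D) p := by
      rw [pd, (h0 j).fderiv_eq, fderiv_fun_add (hdif hG j) (hdif hD.1 j)]
      rfl
    rw [h3, hD.pd_pd_eq, add_zero]
  have h3 : firstForm (fun q => G q + D q) p = firstForm G p := by
    ext i j
    simp only [firstForm, Matrix.of_apply, h1]
  have h4 : secondForm (fun q => G q + D q) p = secondForm G p := by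
    ext i j
    simp only [secondForm, Matrix.of_apply, h1, h2]
  rw [sigma, sigma, curvatures, curvatures, h3, h4]

theorem pd_trans {d : ℕ} {f : Pt d → ℝ} {c : Pt d} (h : ∀ x, f (x + c) = f x)
    (i : Fin (d + 1)) (x : Pt d) : pd i f (x + c) = pd i f x := by
  have h1 : (fun x => f (x + c)) = f := funext h
  rw [pd, pd, ← fderiv_comp_add_right, h1]

theorem sigma_trans {d : ℕ} {f : Pt d → ℝ} {c : Pt d} (h : ∀ x, f (x + c) = f x) (m : ℕ)
    (x : Pt d) : sigma m f (x + c) = sigma m f x := by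
  have h1 : ∀ i, ∀ x, pd i f (x + c) = pd i f x := fun i x => pd_trans h i x
  have h2 : ∀ i j, pd i (pd j f) (x + c) = pd i (pd j f) x := fun i j => pd_trans (h1 j) i x
  have h3 : firstForm f (x + c) = firstForm f x := by
    ext i j
    simp only [firstForm, Matrix.of_apply, h1]
  have h4 : secondForm f (x + c) = secondForm f x := by
    ext i j
    simp only [secondForm, Matrix.of_apply, h1, h2]
  rw [sigma, sigma, curvatures, curvatures, h3, h4]

end Pool.Agent.Y958.HP
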